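import Pool.Agent.R601.BG.Grp

/-!
# MP_23a294_lc: abstract Borel class of the multiplication graph of a group

We prove in ZFC that for every group `E` of cardinality at most the continuum there is a sequence
`A` of subsets of `E` such that the representation `{(x, y, z) : x y = z}` is of class `2` with
respect to `A`; in particular the answer to Q1 is no.
-/

namespace Pool.Agent.Results.MP_23a294_lc.ClassTwo

open Cardinal Set MeasureTheory R601.BG

universe u

/-- The Borel field (sigma-algebra) over the sequence `A` of subsets of `E`. -/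
@[reducible]
def borelField {E : Type u} (A : ℕ → Set E) : MeasurableSpace E :=
  MeasurableSpace.generateFrom (Set.range A)

/-- The classes `C_k(A)` of subsets of `E ^ 3` relative to the sequence `A`: class `0` consists of
the products of three members of the Borel field over `A` and of the complements of such products;
class `k + 1` consists of the countable unions of members of class `k` and of the complements of
such unions. -/
def Cl {E : Type u} (A : ℕ → Set E) : ℕ → Set (Set (E × E × E))
  | 0 => {Z | ∃ B1 B2 B3 : Set E, MeasurableSet[borelField A] B1 ∧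
      MeasurableSet[borelField A] B2 ∧ MeasurableSet[borelField A] B3 ∧
      (Z = B1 ×ˢ B2 ×ˢ B3 ∨ Z = (B1 ×ˢ B2 ×ˢ B3)ᶜ)}
  | k + 1 => {Z | ∃ f : ℕ → Set (E × E × E), (∀ n, f n ∈ Cl A k) ∧
      (Z = ⋃ n, f n ∨ Z = (⋃ n, f n)ᶜ)}

/-- The representation of the group `E`. -/
def rep (E : Type u) [Group E] : Set (E × E × E) := {p | p.1 * p.2.1 = p.2.2}

/-- Each class is contained in the next. -/
theorem Cl_succ {E : Type u} (A : ℕ → Set E) (k : ℕ) : Cl A k ⊆ Cl A (k + 1) := fun Z hZ =>
  ⟨fun _ => Z, fun _ => hZ, Or.inl (Set.iUnion_const Z).symm⟩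

theorem mem_Cl_two_of_Sg {E : Type u} {R : E → E → E → Prop} (h : Sg R) :
    ∃ A : ℕ → Set E, {p : E × E × E | R p.1 p.2.1 p.2.2} ∈ Cl A 2 := by
  classical
  obtain ⟨B1, B2, B3, hB⟩ := h
  let D : Fin 3 × ℕ × ℕ → Set E := fun p =>
    if p.1 = 0 then B1 p.2.1 p.2.2 else if p.1 = 1 then B2 p.2.1 p.2.2 else B3 p.2.1 p.2.2
  let A : ℕ → Set E := fun n => match (Encodable.decode n : Option (Fin 3 × ℕ × ℕ)) with
    | none => ∅
    | some p => D p
  have hA : ∀ p, MeasurableSet[borelField A] (D p) := by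
    intro p
    refine MeasurableSpace.measurableSet_generateFrom ⟨Encodable.encode p, ?_⟩
    have hp := Encodable.encodek p
    simp only [A, hp]
  have hA1 : ∀ m k, MeasurableSet[borelField A] (B1 m k) := fun m k => by
    simpa [D] using hA (0, m, k)
  have hA2 : ∀ m k, MeasurableSet[borelField A] (B2 m k) := fun m k => by
    simpa [D] using hA (1, m, k)
  have hA3 : ∀ m k, MeasurableSet[borelField A] (B3 m k) := fun m k => by
    simpa [D] using hA (2, m, k)
  refine ⟨A, fun m => (⋃ k, B1 m k ×ˢ B2 m k ×ˢ B3 m k)ᶜ, fun m => ?_, Or.inl ?_⟩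
  · exact ⟨fun k => B1 m k ×ˢ B2 m k ×ˢ B3 m k,
      fun k => ⟨B1 m k, B2 m k, B3 m k, hA1 m k, hA2 m k, hA3 m k, Or.inl rfl⟩, Or.inr rfl⟩
  · ext ⟨x, y, z⟩
    have := hB x y z
    simp only [Set.mem_ofPred_eq, Set.mem_iUnion, Set.mem_compl_iff, Set.mem_prod, not_exists]
    exact this

/-- **MP_23a294_lc, Q1: the answer is no** (in ZFC).  For every group `E` of cardinality at most
the continuum there is a sequence `A` of subsets of `E` such that the representation of `E` is of
class `2` (hence of class `3`) with respect to `A`. -/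
theorem result :
    (∀ (E : Type u) [Group E], #E ≤ 𝔠 → ∃ A : ℕ → Set E, rep E ∈ Cl A 2) ∧
    ¬ ∃ (E : Type u) (_ : Group E), #E = 𝔠 ∧ ∀ A : ℕ → Set E, rep E ∉ Cl A 3 := by
  have h : ∀ (E : Type u) [Group E], #E ≤ 𝔠 → ∃ A : ℕ → Set E, rep E ∈ Cl A 2 :=
    fun E _ hE => mem_Cl_two_of_Sg (Sg_mul _ E rfl hE)
  refine ⟨h, ?_⟩
  rintro ⟨E, _, hE, hA⟩
  obtain ⟨A, hA2⟩ := h E hE.le
  exact hA A (Cl_succ A 2 hA2)

end Pool.Agent.Results.MP_23a294_lc.ClassTwo
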